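import Pool.Agent.AT6.Stmts4
import Pool.Agent.Helper24_AT2.DZA
import Pool.Agent.Helper20_PP.Nls
import Pool.Agent.Helper75_PP.Quo

/-!
# Squad AT6, row LNC: the local block of `v` and its image in `C(v)/⟨v⟩`
-/

open scoped BigOperators

set_option autoImplicit false

noncomputable section

namespace Pool.Agent.PP.T6.H24

open Pool.Agent.Helper51_AWC Pool.Agent.Helper79_WRA Pool.Agent.PP Pool.Agent.PP.KF
open Pool.Agent.PP.K9 Pool.Agent.PP.K9.H97 Pool.Agent.PP.H75 Pool.Agent.PP.T3 Pool.Agent.PP.T2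

attribute [local instance] Ideal.Quotient.field

/-- a block of the centraliser of a good subgroup -/
theorem exists_gam {ℓ : ℕ} {F : Type} [Field F] (hF : GoodF ℓ F) {A : Type} [Group A] [Finite A]
    {f : A → F} {W : Subgroup A} (hf : IsBlk f) (hT : Tp ℓ f W)
    (hab : ∀ a ∈ W, ∀ b ∈ W, a * b = b * a) : ∃ γ : A → F, Ld ℓ f W γ := by
  have hbr : br W f ≠ 0 := K9.H69.gd_br hT.gd
  obtain ⟨γ, hγ1, hγ2, hγ3⟩ := H46.exists_blk hbr (Subgroup.centralizer (W : Set A))
  have hBx : Bx (Subgroup.centralizer (W : Set A)) γ := ⟨hγ1, hγ2⟩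
  have hIx : Ix (Subgroup.centralizer (W : Set A)) (br W f) :=
    ⟨fun x hx => H66.br_of_not_mem hx,
      (H20.brm ℓ F hF A W _ hT.pg le_rfl (K9.H69.cent_le_norm _)).2.2 _ hf.1⟩
  refine ⟨γ, hf, hT, hab, hBx, ?_⟩
  rw [hIx.comm hBx.ix]
  rcases hBx.dich' hIx with h2 | h2
  · exact h2
  · exfalso
    apply hγ3
    rw [hIx.comm hBx.ix, h2]

theorem lnc (psg : T3.PsgStmt) (pug : K9.PugStmt) (lsb : T3.LsbStmt) : LncStmt := by
  intro ℓ hℓ M hMx hM G _ _ e V γ hL u hu b hb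
  have hF : GoodF ℓ (FF M) := H50.fld ℓ hℓ.out M hM
  obtain ⟨hLb, -, -, -, -⟩ := lsb ℓ M hM G e V γ hL u hu b hb
  have htp := hLb.tp
  have huC : u ∈ Cu u := by
    rw [Subgroup.mem_centralizer_iff]
    intro x hx
    rw [Set.mem_singleton_iff.1 hx]
  have hz : ∀ x : Cu u, (⟨u, huC⟩ : Cu u) * x = x * ⟨u, huC⟩ := by
    intro x
    apply Subtype.ext
    have h1 := Subgroup.mem_centralizer_iff.1 x.2 u (Set.mem_singleton u)
    exact h1
  let N : Subgroup (Cu u) := Subgroup.zpowers (⟨u, huC⟩ : Cu u)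
  have hNc : N ≤ Subgroup.center (Cu u) := by
    rw [Subgroup.zpowers_le, Subgroup.mem_center_iff]
    intro g
    exact (hz g).symm
  have hNn : N.Normal := by
    refine ⟨fun x hx g => ?_⟩
    have h1 := Subgroup.mem_center_iff.1 (hNc hx) g
    rw [h1, mul_inv_cancel_right]
    exact hx
  let p : Cu u →* Cu u ⧸ N := QuotientGroup.mk' N
  have hp : Function.Surjective p := QuotientGroup.mk'_surjective N
  have hker : p.ker = N := QuotientGroup.ker_mk' N
  have hkV : p.ker ≤ V.subgroupOf (Cu u) := by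
    rw [hker, Subgroup.zpowers_le, Subgroup.mem_subgroupOf]
    exact hu
  have hk : IsPGroup ℓ p.ker := htp.pg.to_le hkV
  have hblk : IsBlk (push p (fun t : Cu u => b t)) :=
    psg ℓ (FF M) hF (Cu u) (Cu u ⧸ N) p hp (hker.le.trans hNc) hk _ hb.blk.blk
  have hcm : ((V.subgroupOf (Cu u)).map p).comap p = V.subgroupOf (Cu u) :=
    Subgroup.comap_map_eq_self hkV
  have hVc : Nat.card (V.subgroupOf (Cu u)) =
      Nat.card p.ker * Nat.card ((V.subgroupOf (Cu u)).map p) := by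
    have h1 := card_comap hp ((V.subgroupOf (Cu u)).map p)
    rw [hcm] at h1
    exact h1
  have hkpos : 0 < Nat.card p.ker := Nat.card_pos
  have htp' : Tp ℓ (push p (fun t : Cu u => b t)) ((V.subgroupOf (Cu u)).map p) := by
    refine ⟨htp.pg.map p, ?_, ?_⟩
    · exact (pug ℓ (FF M) hF (Cu u) (Cu u ⧸ N) p hp hk _ hb.blk.blk.1 _ hkV htp.pg).1 htp.gd
    · intro Q hQ hg
      have h1 : IsPGroup ℓ (Q.comap p) := hQ.comap_of_ker_isPGroup p hk
      have h2 : (Q.comap p).map p = Q := Subgroup.map_comap_eq_self_of_surjective hp Q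
      have h3 : Gd (fun t : Cu u => b t) (Q.comap p) := by
        refine (pug ℓ (FF M) hF (Cu u) (Cu u ⧸ N) p hp hk _ hb.blk.blk.1 _
          (Subgroup.ker_le_comap p Q) h1).2 ?_
        rw [h2]
        exact hg
      have h4 := htp.mx _ h1 h3
      rw [card_comap hp, hVc] at h4
      exact Nat.le_of_mul_le_mul_left h4 hkpos
  have hab : ∀ x ∈ (V.subgroupOf (Cu u)).map p, ∀ y ∈ (V.subgroupOf (Cu u)).map p,
      x * y = y * x := by
    rintro _ ⟨x, hx, rfl⟩ _ ⟨y, hy, rfl⟩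
    rw [← map_mul, ← map_mul, hLb.ab x hx y hy]
  refine ⟨Cu u ⧸ N, inferInstance, inferInstance, p, hp, ?_, exists_gam hF hblk htp' hab, ?_⟩
  · intro x
    rw [← MonoidHom.mem_ker, hker, Subgroup.mem_zpowers_iff, Subgroup.mem_zpowers_iff]
    constructor
    · rintro ⟨k, hk⟩
      refine ⟨k, ?_⟩
      rw [← hk]
      rfl
    · rintro ⟨k, hk⟩
      refine ⟨k, ?_⟩
      apply Subtype.ext
      rw [← hk]
      rfl
  · exact (H75.cnt_push H20.nls hF hp hk (fun t : Cu u => b t)).symm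

end Pool.Agent.PP.T6.H24
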